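import Pool.Agent.H.MP_098da0_al.X

open Matrix Filter Topology

namespace Pool.Agent.Results.MP_098da0_al.Stable

def IsStable (C : ℕ → Type) [∀ k, Group (C k)] (d : ∀ k, C k → C k → ℝ) (G : Type) [Group G] : Prop :=
  ∀ (k : ℕ → ℕ), (∀ i, 0 < k i) → ∀ φ : ∀ i, G → C (k i),
    (∀ a b, Tendsto (fun i => d (k i) (φ i a * φ i b) (φ i (a * b))) atTop (𝓝 0)) →
    ∃ ψ : ∀ i, G →* C (k i), ∀ a, Tendsto (fun i => d (k i) (φ i a) (ψ i a)) atTop (𝓝 0)

noncomputable def hamming (k : ℕ) (σ τ : Equiv.Perm (Fin k)) : ℝ :=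
  ((Finset.univ.filter fun x => σ x ≠ τ x).card : ℝ) / k

noncomputable def hs (k : ℕ) (A B : unitaryGroup (Fin k) ℂ) : ℝ :=
  √((trace ((A.1 - B.1)ᴴ * (A.1 - B.1))).re / k)

def AlmostNormal {G : Type} [Group G] (K : Subgroup G) : Prop :=
  (Set.range fun g : G => K.map (MulAut.conj g).toMonoidHom).Finite

theorem result (H : Type) [Group H] [Finite H] (G : Bool → Type) [∀ b, Group (G b)] (f : ∀ b, H →* G b)
    (_hf : ∀ b, Function.Injective (f b)) (hG : ∀ b, Group.FG (G b)) (hn : ∀ b, AlmostNormal (f b).range) :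
    ((∀ b, IsStable (fun k => Equiv.Perm (Fin k)) hamming (G b)) →
      IsStable (fun k => Equiv.Perm (Fin k)) hamming (Monoid.PushoutI f)) ∧
    ((∀ b, IsStable (fun k => unitaryGroup (Fin k) ℂ) hs (G b)) →
      IsStable (fun k => unitaryGroup (Fin k) ℂ) hs (Monoid.PushoutI f)) := by
  obtain ⟨h1, h2⟩ := Pool.Agent.H.MP_098da0_al.main H G f hG hn
  exact ⟨fun s => (Pool.Agent.H.MP_098da0_al.trP _).2 (h1 fun b => (Pool.Agent.H.MP_098da0_al.trP _).1 (s b)),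
    fun s => (Pool.Agent.H.MP_098da0_al.trU _).2 (h2 fun b => (Pool.Agent.H.MP_098da0_al.trU _).1 (s b))⟩

end Pool.Agent.Results.MP_098da0_al.Stable
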